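import Mathlib
import Pool.Agent.Lib.SecantQuadruple
import Pool.Agent.Lib.QuadrupleSubspaces

/-!
# The Secant Conjecture for four equal rectangles

Schubert problem `(λ, λ, λ, λ)` in `Gr(2p, 2m)` with `λ = ((m-p)^p)`, for all `0 ≤ p ≤ m`.
-/

set_option autoImplicit false

namespace Pool.Agent.Results.MP_0c25eb_ag.FourRectangles

open Module

/-- The point `γ(s) = (1, s, s², …, s^(n-1))` of `ℂⁿ` on the rational normal curve. -/
noncomputable def gammaPt (n : ℕ) (s : ℝ) : Fin n → ℂ := fun b => (s : ℂ) ^ (b : ℕ)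

/-- The `d`-dimensional member `F_d` of the secant flag with points of secancy
`t 0, t 1, …, t (n-1)`: the linear span of `γ(t 0), …, γ(t (d-1))`. -/
noncomputable def secantFlag {n : ℕ} (t : Fin n → ℝ) (d : ℕ) : Submodule ℂ (Fin n → ℂ) :=
  Submodule.span ℂ ((fun a : Fin n => gammaPt n (t a)) '' {a | (a : ℕ) < d})

/-- The Schubert variety `X_λ F_•` in `Gr(k, n)` of a secant flag: all `H` with `dim H = k` and
`dim (H ∩ F_{n-k+i-λ_i}) ≥ i` for `i = 1, …, k` (the index `i : Fin k` below is `i - 1`). -/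
def schubertVariety {n : ℕ} (k : ℕ) (lam : Fin k → ℕ) (t : Fin n → ℝ) :
    Set (Submodule ℂ (Fin n → ℂ)) :=
  {H | finrank ℂ H = k ∧ ∀ i : Fin k, (i : ℕ) + 1 ≤
    finrank ℂ ↥(H ⊓ secantFlag t (n - k + ((i : ℕ) + 1) - lam i))}

/-- The rectangular partition `(q, …, q, 0, …, 0)` with `p` parts equal to `q`. -/
def rect (k p q : ℕ) : Fin k → ℕ := fun i => if (i : ℕ) < p then q else 0

/-- The flags with points of secancy `t j` are disjoint secant flags: the points of each flag are
distinct, and of any two flags, all points of one lie to the left of all points of the other. -/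
def DisjointSecant {n r : ℕ} (t : Fin r → Fin n → ℝ) : Prop :=
  (∀ j, Function.Injective (t j)) ∧
    ∀ j j', j ≠ j' → (∀ a b, t j a < t j' b) ∨ (∀ a b, t j' a < t j b)

/-- The intersection of the four Schubert varieties `X_λ F^j`, `λ = ((m-p)^p)`, in
`Gr(2p, 2m)`. -/
def solutions (m p : ℕ) (t : Fin 4 → Fin (2 * m) → ℝ) : Set (Submodule ℂ (Fin (2 * m) → ℂ)) :=
  ⋂ j, schubertVariety (2 * p) (rect (2 * p) p (m - p)) (t j)

/-- The only linear map `φ : H → ℂⁿ/H` with `φ (H ∩ F j) ⊆ (F j + H)/H` for all `j` is `0`. -/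
def TangentZero {n r : ℕ} (F : Fin r → Submodule ℂ (Fin n → ℂ)) (H : Submodule ℂ (Fin n → ℂ)) :
    Prop :=
  ∀ φ : ↥H →ₗ[ℂ] ((Fin n → ℂ) ⧸ H),
    (∀ j, ∀ v : ↥H, (v : Fin n → ℂ) ∈ F j → φ v ∈ (F j).map H.mkQ) → φ = 0

/-- `H` is real: stable under complex conjugation. -/
def IsRealSpace {n : ℕ} (H : Submodule ℂ (Fin n → ℂ)) : Prop := ∀ v ∈ H, star v ∈ H

/-! ### Linear independence of points of the curve -/

lemma linearIndependent_gamma {n : ℕ} {ι : Type*} [Fintype ι] (u : ι → ℝ)
    (hu : Function.Injective u) (hcard : Fintype.card ι ≤ n) :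
    LinearIndependent ℂ (fun a => gammaPt n (u a)) := by
  classical
  rw [Fintype.linearIndependent_iff]
  intro c hc i
  -- the polynomial vanishing at the other points
  set P : Polynomial ℂ := ∏ a ∈ Finset.univ.erase i, (Polynomial.X - Polynomial.C ((u a : ℝ) : ℂ))
    with hP
  have hPdeg : P.natDegree < n := by
    rw [hP, Polynomial.natDegree_prod_of_monic _ _ (fun a _ => Polynomial.monic_X_sub_C _)]
    simp only [Polynomial.natDegree_X_sub_C, Finset.sum_const, smul_eq_mul, mul_one]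
    rw [Finset.card_erase_of_mem (Finset.mem_univ i), Finset.card_univ]
    have : 0 < Fintype.card ι := Fintype.card_pos_iff.mpr ⟨i⟩
    omega
  have h1 : ∑ a, c a * P.eval ((u a : ℝ) : ℂ) = 0 := by
    have h2 : ∀ a, P.eval ((u a : ℝ) : ℂ) = ∑ b : Fin n, P.coeff b * ((u a : ℝ) : ℂ) ^ (b : ℕ) := by
      intro a
      rw [Polynomial.eval_eq_sum_range' hPdeg, Finset.sum_range]
    simp only [h2, Finset.mul_sum]
    rw [Finset.sum_comm]
    refine Finset.sum_eq_zero fun b _ => ?_
    have h3 := congrFun hc b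
    simp only [Finset.sum_apply, Pi.smul_apply, gammaPt, smul_eq_mul, Pi.zero_apply] at h3
    calc ∑ a, c a * (P.coeff b * ((u a : ℝ) : ℂ) ^ (b : ℕ))
        = P.coeff b * ∑ a, c a * ((u a : ℝ) : ℂ) ^ (b : ℕ) := by
          rw [Finset.mul_sum]; refine Finset.sum_congr rfl fun a _ => ?_; ring
      _ = 0 := by rw [h3, mul_zero]
  rw [Finset.sum_eq_single i] at h1
  · have hne : P.eval ((u i : ℝ) : ℂ) ≠ 0 := by
      rw [hP, Polynomial.eval_prod, Finset.prod_ne_zero_iff]
      intro a ha
      simp only [Polynomial.eval_sub, Polynomial.eval_X, Polynomial.eval_C]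
      rw [sub_ne_zero]
      intro h
      have := hu (Complex.ofReal_injective h)
      exact (Finset.ne_of_mem_erase ha) this.symm
    exact (mul_eq_zero.mp h1).resolve_right hne
  · intro a _ ha
    have : P.eval ((u a : ℝ) : ℂ) = 0 := by
      rw [hP, Polynomial.eval_prod]
      refine Finset.prod_eq_zero (Finset.mem_erase.mpr ⟨ha, Finset.mem_univ a⟩) ?_
      simp
    rw [this, mul_zero]
  · intro h; exact absurd (Finset.mem_univ i) h

lemma secantFlag_eq {n d : ℕ} (hd : d ≤ n) (t : Fin n → ℝ) :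
    secantFlag t d = Submodule.span ℂ (Set.range fun a : Fin d => gammaPt n (t (Fin.castLE hd a))) := by
  unfold secantFlag
  congr 1
  ext v
  constructor
  · rintro ⟨a, ha, rfl⟩
    exact ⟨⟨a, ha⟩, rfl⟩
  · rintro ⟨a, rfl⟩
    exact ⟨Fin.castLE hd a, a.2, rfl⟩

lemma finrank_secantFlag {n d : ℕ} (hd : d ≤ n) {t : Fin n → ℝ} (ht : Function.Injective t) :
    finrank ℂ (secantFlag t d) = d := by
  rw [secantFlag_eq hd]
  have h := linearIndependent_gamma (n := n) (fun a : Fin d => t (Fin.castLE hd a))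
    (fun a b hab => Fin.castLE_injective hd (ht hab)) (by simpa using hd)
  rw [finrank_span_eq_card h, Fintype.card_fin]

lemma secantFlag_mono {n d d' : ℕ} (h : d ≤ d') (t : Fin n → ℝ) :
    secantFlag t d ≤ secantFlag t d' := by
  unfold secantFlag
  refine Submodule.span_mono (Set.image_mono ?_)
  intro a ha
  exact lt_of_lt_of_le ha h

lemma secantFlag_top {n : ℕ} {t : Fin n → ℝ} (ht : Function.Injective t) :
    secantFlag t n = ⊤ := by
  apply Submodule.eq_top_of_finrank_eq
  rw [finrank_secantFlag le_rfl ht]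
  simp

lemma inf_finrank {V : Type*} [AddCommGroup V] [Module ℂ V] [FiniteDimensional ℂ V]
    {U F F' : Submodule ℂ V} (hU : U ≤ F) (hF : F' ≤ F) :
    finrank ℂ U + finrank ℂ F' ≤ finrank ℂ ↥(U ⊓ F') + finrank ℂ F := by
  have h1 := Submodule.finrank_sup_add_finrank_inf_eq U F'
  have h2 : finrank ℂ ↥(U ⊔ F') ≤ finrank ℂ F := Submodule.finrank_mono (sup_le hU hF)
  omega

/-- For a rectangle only the essential condition matters. -/
lemma mem_schubert_rect {m p : ℕ} (hp : p ≤ m) {t : Fin (m + m) → ℝ}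
    (ht : Function.Injective t) (H : Submodule ℂ (Fin (m + m) → ℂ)) :
    H ∈ schubertVariety (2 * p) (rect (2 * p) p (m - p)) t ↔
      finrank ℂ H = 2 * p ∧ p ≤ finrank ℂ ↥(H ⊓ secantFlag t m) := by
  constructor
  · rintro ⟨h1, h2⟩
    refine ⟨h1, ?_⟩
    rcases Nat.eq_zero_or_pos p with rfl | hpos
    · omega
    · have h3 : (p - 1) + 1 ≤ finrank ℂ ↥(H ⊓ secantFlag t
          (m + m - 2 * p + ((p - 1) + 1) - rect (2 * p) p (m - p) ⟨p - 1, by omega⟩)) :=
        h2 ⟨p - 1, by omega⟩
      have e1 : rect (2 * p) p (m - p) ⟨p - 1, by omega⟩ = m - p := by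
        simp only [rect]; rw [if_pos (by omega)]
      have e2 : m + m - 2 * p + (p - 1 + 1) - (m - p) = m := by omega
      rw [e1, e2] at h3
      omega
  · rintro ⟨h1, h2⟩
    refine ⟨h1, fun i => ?_⟩
    by_cases hi : (i : ℕ) < p
    · have e1 : rect (2 * p) p (m - p) i = m - p := by simp only [rect]; rw [if_pos hi]
      have e2 : m + m - 2 * p + ((i : ℕ) + 1) - (m - p) = m - p + ((i : ℕ) + 1) := by omega
      rw [e1, e2]
      have h3 := inf_finrank (U := H ⊓ secantFlag t m) (F := secantFlag t m)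
        (F' := secantFlag t (m - p + ((i : ℕ) + 1))) inf_le_right (secantFlag_mono (by omega) t)
      rw [finrank_secantFlag (by omega) ht, finrank_secantFlag (by omega) ht, inf_assoc,
        inf_eq_right.mpr (secantFlag_mono (by omega) t)] at h3
      omega
    · have e1 : rect (2 * p) p (m - p) i = 0 := by simp only [rect]; rw [if_neg hi]
      have e2 : m + m - 2 * p + ((i : ℕ) + 1) - 0 = m + m - 2 * p + ((i : ℕ) + 1) := by omega
      rw [e1, e2]
      have hi2 := i.2
      have h3 := inf_finrank (U := H) (F := ⊤)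
        (F' := secantFlag t (m + m - 2 * p + ((i : ℕ) + 1))) le_top le_top
      rw [finrank_secantFlag (by omega) ht, finrank_top, h1] at h3
      simp only [finrank_fintype_fun_eq_card, Fintype.card_fin] at h3
      omega

/-! ### The complex normal form -/

open Pool.Agent.SignAlternation in
/-- complexification of a real combination of points of the curve -/
lemma comb_complex {m n : ℕ} (ξ τ : Fin m → ℝ) :
    (fun b => ((comb n ξ τ b : ℝ) : ℂ)) = ∑ a, (ξ a : ℂ) • gammaPt n (τ a) := by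
  funext b
  simp only [comb, rpt, gammaPt, Finset.sum_apply, Pi.smul_apply, smul_eq_mul]
  push_cast
  rfl

open Pool.Agent.SignAlternation Pool.Agent.Quadruple in
/-- The four secant subspaces of dimension `m` in `ℂ^(2m)` are in normal form, with a real
structure. -/
lemma exists_normalForm {m : ℕ} (hm : 0 < m) {t : Fin 4 → Fin (m + m) → ℝ}
    (ht : ∀ j, Function.Injective (t j)) (hord : ∀ j j', j < j' → ∀ a b, t j a < t j' b) :
    ∃ N : NormalForm ℂ (Fin (m + m) → ℂ) m (fun j => secantFlag (t j) m),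
      ∀ v, N.Φ (star v) = (star (N.Φ v).1, star (N.Φ v).2) := by
  classical
  have hle : m ≤ m + m := by omega
  set τ : Fin 4 → Fin m → ℝ := fun j a => t j (Fin.castLE hle a) with hτ
  have hτinj : ∀ j, Function.Injective (τ j) := fun j a b hab =>
    Fin.castLE_injective hle (ht j hab)
  have hτord : ∀ j j', j < j' → ∀ a b, τ j a < τ j' b := fun j j' h a b => hord j j' h _ _
  obtain ⟨μ, ξ, η, α, β, hμinj, hμ0, hξ, hη, h1, h3⟩ := exists_normal_form hm τ hτinj hτord
  set Xv : Fin m → (Fin (m + m) → ℂ) := fun i b => ((comb (m + m) (ξ i) (τ 0) b : ℝ) : ℂ) with hXv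
  set Yv : Fin m → (Fin (m + m) → ℂ) := fun i b => ((comb (m + m) (η i) (τ 2) b : ℝ) : ℂ) with hYv
  have hX : ∀ i, Xv i = ∑ a, (ξ i a : ℂ) • gammaPt (m + m) (τ 0 a) := fun i => comb_complex _ _
  have hY : ∀ i, Yv i = ∑ a, (η i a : ℂ) • gammaPt (m + m) (τ 2 a) := fun i => comb_complex _ _
  -- the parametrisation of the whole space
  let Ψ : ((Fin m → ℂ) × (Fin m → ℂ)) →ₗ[ℂ] (Fin (m + m) → ℂ) :=
    (Fintype.linearCombination ℂ Xv).coprod (Fintype.linearCombination ℂ Yv)
  have hΨ : ∀ a b, Ψ (a, b) = (∑ i, a i • Xv i) + ∑ i, b i • Yv i := by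
    intro a b
    simp [Ψ, Fintype.linearCombination_apply]
  have hinj : Function.Injective Ψ := by
    rw [← LinearMap.ker_eq_bot, LinearMap.ker_eq_bot']
    rintro ⟨a, b⟩ hab
    rw [hΨ] at hab
    have hli : LinearIndependent ℂ (fun c : Fin m ⊕ Fin m =>
        gammaPt (m + m) (Sum.elim (τ 0) (τ 2) c)) := by
      refine linearIndependent_gamma _ ?_ (by simp)
      rw [Sum.elim_injective]
      refine ⟨hτinj 0, hτinj 2, fun c d => (hτord 0 2 (by decide) c d).ne⟩
    rw [Fintype.linearIndependent_iff] at hli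
    have h4 := hli (Sum.elim (fun c => ∑ i, a i * (ξ i c : ℂ)) (fun c => ∑ i, b i * (η i c : ℂ))) (by
      rw [Fintype.sum_sum_type]
      simp only [Sum.elim_inl, Sum.elim_inr]
      rw [← hab]
      congr 1
      · simp only [hX, Finset.smul_sum, smul_smul, Finset.sum_smul]
        rw [Finset.sum_comm]
      · simp only [hY, Finset.smul_sum, smul_smul, Finset.sum_smul]
        rw [Finset.sum_comm])
    have hdet : ∀ (ζ : Fin m → Fin m → ℝ), (Matrix.of ζ).det ≠ 0 → ∀ a : Fin m → ℂ,
        (∀ c, ∑ i, a i * (ζ i c : ℂ) = 0) → a = 0 := by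
      intro ζ hζ a ha
      have h5 : ((Matrix.of ζ).map (algebraMap ℝ ℂ)).det ≠ 0 := by
        have := (algebraMap ℝ ℂ).map_det (Matrix.of ζ)
        rw [RingHom.mapMatrix_apply] at this
        rw [← this]
        exact (map_ne_zero _).mpr hζ
      refine Matrix.eq_zero_of_vecMul_eq_zero h5 ?_
      funext c
      simp only [Matrix.vecMul, dotProduct, Matrix.map_apply, Matrix.of_apply,
        Complex.coe_algebraMap, Pi.zero_apply]
      exact ha c
    have ha := hdet ξ hξ a (fun c => h4 (Sum.inl c))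
    have hb := hdet η hη b (fun c => h4 (Sum.inr c))
    rw [ha, hb]; rfl
  have hfin : finrank ℂ ((Fin m → ℂ) × (Fin m → ℂ)) = finrank ℂ (Fin (m + m) → ℂ) := by
    rw [finrank_prod]; simp
  let E : ((Fin m → ℂ) × (Fin m → ℂ)) ≃ₗ[ℂ] (Fin (m + m) → ℂ) :=
    LinearEquiv.ofInjectiveOfFinrankEq Ψ hinj hfin
  have hE : ∀ x, E x = Ψ x := fun x => rfl
  -- general principle: range of an injective map into F j is F j
  have hFj : ∀ j, finrank ℂ (secantFlag (t j) m) = m := fun j => finrank_secantFlag hle (ht j)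
  have hmemF : ∀ (j : Fin 4) (c : Fin m → ℂ), (∑ a, c a • gammaPt (m + m) (τ j a)) ∈
      secantFlag (t j) m := by
    intro j c
    refine Submodule.sum_mem _ fun a _ => Submodule.smul_mem _ _ (Submodule.subset_span ?_)
    exact ⟨Fin.castLE hle a, a.2, rfl⟩
  have hrange : ∀ (j : Fin 4) (ι : (Fin m → ℂ) →ₗ[ℂ] (Fin (m + m) → ℂ)),
      Function.Injective ι → (∀ a, ι a ∈ secantFlag (t j) m) →
      LinearMap.range ι = secantFlag (t j) m := by
    intro j ι hι hmem
    refine Submodule.eq_of_le_of_finrank_eq ?_ ?_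
    · rintro _ ⟨a, rfl⟩; exact hmem a
    · rw [LinearMap.finrank_range_of_inj hι, hFj]; simp
  have hXmem : ∀ i, Xv i ∈ secantFlag (t 0) m := fun i => by rw [hX]; exact hmemF 0 _
  have hYmem : ∀ i, Yv i ∈ secantFlag (t 2) m := fun i => by rw [hY]; exact hmemF 2 _
  have hXYmem : ∀ i, Xv i + Yv i ∈ secantFlag (t 1) m := fun i => by
    have e : Xv i + Yv i = fun b => ((comb (m + m) (α i) (τ 1) b : ℝ) : ℂ) := by
      funext b
      rw [← h1 i]
      simp [hXv, hYv]
    rw [e, comb_complex]; exact hmemF 1 _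
  have hXYmem' : ∀ i, Xv i + (μ i : ℂ) • Yv i ∈ secantFlag (t 3) m := fun i => by
    have e : Xv i + (μ i : ℂ) • Yv i = fun b => ((comb (m + m) (β i) (τ 3) b : ℝ) : ℂ) := by
      funext b
      rw [← h3 i]
      simp [hXv, hYv]
    rw [e, comb_complex]; exact hmemF 3 _
  have r0 := hrange 0 (Ψ ∘ₗ LinearMap.inl ℂ _ _) (hinj.comp LinearMap.inl_injective) (fun a => by
    rw [LinearMap.comp_apply, LinearMap.inl_apply, hΨ]
    simp only [Pi.zero_apply, zero_smul, Finset.sum_const_zero, add_zero]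
    exact Submodule.sum_mem _ fun i _ => Submodule.smul_mem _ _ (hXmem i))
  have r2 := hrange 2 (Ψ ∘ₗ LinearMap.inr ℂ _ _) (hinj.comp LinearMap.inr_injective) (fun a => by
    rw [LinearMap.comp_apply, LinearMap.inr_apply, hΨ]
    simp only [Pi.zero_apply, zero_smul, Finset.sum_const_zero, zero_add]
    exact Submodule.sum_mem _ fun i _ => Submodule.smul_mem _ _ (hYmem i))
  have r1 := hrange 1 (Ψ ∘ₗ LinearMap.prod LinearMap.id LinearMap.id)
    (hinj.comp (fun a b h => (Prod.ext_iff.mp h).1)) (fun a => by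
    change Ψ (a, a) ∈ _
    rw [hΨ, ← Finset.sum_add_distrib]
    refine Submodule.sum_mem _ fun i _ => ?_
    rw [← smul_add]
    exact Submodule.smul_mem _ _ (hXYmem i))
  have r3 := hrange 3 (Ψ ∘ₗ LinearMap.prod LinearMap.id
      (LinearMap.pi fun i => (μ i : ℂ) • LinearMap.proj i))
    (hinj.comp (fun a b h => (Prod.ext_iff.mp h).1)) (fun a => by
    change Ψ (a, fun i => (μ i : ℂ) * a i) ∈ _
    rw [hΨ, ← Finset.sum_add_distrib]
    refine Submodule.sum_mem _ fun i _ => ?_
    have e : a i • Xv i + ((μ i : ℂ) * a i) • Yv i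
        = a i • (Xv i + (μ i : ℂ) • Yv i) := by
      rw [smul_add, smul_smul, mul_comm]
    rw [e]
    exact Submodule.smul_mem _ _ (hXYmem' i))
  have hback : ∀ w, Ψ (E.symm w) = w := fun w => by rw [← hE, LinearEquiv.apply_symm_apply]
  have hforw : ∀ x, E.symm (Ψ x) = x := fun x => by rw [← hE, LinearEquiv.symm_apply_apply]
  refine ⟨{ Φ := E.symm
            μ := fun i => (μ i : ℂ)
            μ_inj := fun a b h => hμinj (Complex.ofReal_injective h)
            μ_ne := fun i => by exact_mod_cast hμ0 i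
            mem0 := ?_, mem1 := ?_, mem2 := ?_, mem3 := ?_ }, ?_⟩
  · intro w
    change w ∈ secantFlag (t 0) m ↔ _
    rw [← r0]
    constructor
    · rintro ⟨a, rfl⟩
      change (E.symm (Ψ (a, 0))).2 = 0
      rw [hforw]
    · intro h
      refine ⟨(E.symm w).1, ?_⟩
      change Ψ ((E.symm w).1, 0) = w
      conv_rhs => rw [← hback w]
      rw [← h]
  · intro w
    change w ∈ secantFlag (t 1) m ↔ _
    rw [← r1]
    constructor
    · rintro ⟨a, rfl⟩
      change (E.symm (Ψ (a, a))).1 = (E.symm (Ψ (a, a))).2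
      rw [hforw]
    · intro h
      refine ⟨(E.symm w).1, ?_⟩
      change Ψ ((E.symm w).1, (E.symm w).1) = w
      conv_rhs => rw [← hback w]
      congr 1
      exact Prod.ext rfl h
  · intro w
    change w ∈ secantFlag (t 2) m ↔ _
    rw [← r2]
    constructor
    · rintro ⟨a, rfl⟩
      change (E.symm (Ψ (0, a))).1 = 0
      rw [hforw]
    · intro h
      refine ⟨(E.symm w).2, ?_⟩
      change Ψ (0, (E.symm w).2) = w
      conv_rhs => rw [← hback w]
      rw [← h]
  · intro w
    change w ∈ secantFlag (t 3) m ↔ _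
    rw [← r3]
    constructor
    · rintro ⟨a, rfl⟩
      change (E.symm (Ψ (a, fun i => (μ i : ℂ) * a i))).2 =
        fun i => (μ i : ℂ) * (E.symm (Ψ (a, fun i => (μ i : ℂ) * a i))).1 i
      rw [hforw]
    · intro h
      refine ⟨(E.symm w).1, ?_⟩
      change Ψ ((E.symm w).1, fun i => (μ i : ℂ) * (E.symm w).1 i) = w
      conv_rhs => rw [← hback w]
      congr 1
      exact Prod.ext rfl h.symm
  · intro v
    change E.symm (star v) = (star (E.symm v).1, star (E.symm v).2)
    have hXs : ∀ i, star (Xv i) = Xv i := fun i => by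
      funext b; simp [hXv]
    have hYs : ∀ i, star (Yv i) = Yv i := fun i => by
      funext b; simp [hYv]
    have e : Ψ (star (E.symm v).1, star (E.symm v).2) = star v := by
      conv_rhs => rw [← hback v]
      rw [hΨ, show Ψ (E.symm v) = Ψ ((E.symm v).1, (E.symm v).2) from rfl, hΨ, star_add, star_sum,
        star_sum]
      congr 1
      · refine Finset.sum_congr rfl fun i _ => ?_
        rw [star_smul, hXs]; rfl
      · refine Finset.sum_congr rfl fun i _ => ?_
        rw [star_smul, hYs]; rfl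
    rw [← e, hforw]

open Pool.Agent.Quadruple in
/-- The theorem for ordered intervals of secancy. -/
lemma core_ordered {m p : ℕ} (hm : 0 < m) (hp : p ≤ m) {t : Fin 4 → Fin (m + m) → ℝ}
    (ht : ∀ j, Function.Injective (t j)) (hord : ∀ j j', j < j' → ∀ a b, t j a < t j' b) :
    (⋂ j, schubertVariety (2 * p) (rect (2 * p) p (m - p)) (t j)).Finite ∧
    (⋂ j, schubertVariety (2 * p) (rect (2 * p) p (m - p)) (t j)).ncard = m.choose p ∧
    ∀ H ∈ ⋂ j, schubertVariety (2 * p) (rect (2 * p) p (m - p)) (t j),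
      (∀ v ∈ H, star v ∈ H) ∧
      (∀ j, finrank ℂ ↥(H ⊓ secantFlag (t j) m) = p) ∧
      ∀ φ : ↥H →ₗ[ℂ] ((Fin (m + m) → ℂ) ⧸ H),
        (∀ j, ∀ v : ↥H, (v : Fin (m + m) → ℂ) ∈ secantFlag (t j) m →
          φ v ∈ (secantFlag (t j) m).map H.mkQ) → φ = 0 := by
  classical
  obtain ⟨N, hN⟩ := exists_normalForm hm ht hord
  have hX : (⋂ j, schubertVariety (2 * p) (rect (2 * p) p (m - p)) (t j)) =
      N.sub '' {S : Finset (Fin m) | S.card = p} := by
    ext H
    rw [Set.mem_iInter]
    constructor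
    · intro h
      have h1 := fun j => (mem_schubert_rect hp (ht j) H).mp (h j)
      obtain ⟨S, hS, rfl⟩ := (N.mem_iff p H).mp ⟨(h1 0).1, fun j => (h1 j).2⟩
      exact ⟨S, hS, rfl⟩
    · rintro ⟨S, hS, rfl⟩ j
      rw [mem_schubert_rect hp (ht j)]
      obtain ⟨h1, h2⟩ := (N.mem_iff p (N.sub S)).mpr ⟨S, hS, rfl⟩
      exact ⟨h1, h2 j⟩
  have hset : {S : Finset (Fin m) | S.card = p} =
      ((Finset.univ.powersetCard p : Finset (Finset (Fin m))) : Set (Finset (Fin m))) := by
    ext S
    simp [Finset.mem_powersetCard]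
  rw [hX]
  refine ⟨(Set.toFinite _).image _, ?_, ?_⟩
  · rw [Set.ncard_image_of_injective _ N.sub_injective, hset, Set.ncard_coe_finset,
      Finset.card_powersetCard, Finset.card_univ, Fintype.card_fin]
  · rintro _ ⟨S, hS, rfl⟩
    refine ⟨?_, ?_, ?_⟩
    · intro v hv
      rw [N.mem_sub] at hv ⊢
      rw [hN]
      refine ⟨fun i hi => ?_, fun i hi => ?_⟩
      · change star ((N.Φ v).1 i) = 0
        rw [hv.1 i hi, star_zero]
      · change star ((N.Φ v).2 i) = 0
        rw [hv.2 i hi, star_zero]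
    · intro j
      rw [N.finrank_sub_inf]; exact hS
    · intro φ hφ
      refine N.tangent_trivial S φ (fun j v hv => ?_)
      obtain ⟨f, hf, hf2⟩ := hφ j v hv
      exact ⟨f, hf, hf2.symm⟩

/-- The same for intervals of secancy in any order, in dimension `n = m + m`. -/
lemma core {m p : ℕ} (hm : 0 < m) (hp : p ≤ m) : ∀ (n : ℕ), n = m + m →
    ∀ t : Fin 4 → Fin n → ℝ,
    (∀ j, Function.Injective (t j)) →
    (∀ j j', j ≠ j' → (∀ a b, t j a < t j' b) ∨ (∀ a b, t j' a < t j b)) →
    (⋂ j, schubertVariety (2 * p) (rect (2 * p) p (m - p)) (t j)).Finite ∧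
    (⋂ j, schubertVariety (2 * p) (rect (2 * p) p (m - p)) (t j)).ncard = m.choose p ∧
    ∀ H ∈ ⋂ j, schubertVariety (2 * p) (rect (2 * p) p (m - p)) (t j),
      (∀ v ∈ H, star v ∈ H) ∧
      (∀ j, finrank ℂ ↥(H ⊓ secantFlag (t j) m) = p) ∧
      ∀ φ : ↥H →ₗ[ℂ] ((Fin n → ℂ) ⧸ H),
        (∀ j, ∀ v : ↥H, (v : Fin n → ℂ) ∈ secantFlag (t j) m →
          φ v ∈ (secantFlag (t j) m).map H.mkQ) → φ = 0 := by
  rintro _ rfl t ht hsep
  set f : Fin 4 → ℝ := fun j => t j ⟨0, by omega⟩ with hf
  have hfinj : Function.Injective f := by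
    intro j j' hjj'
    by_contra hne
    rcases hsep j j' hne with h | h
    · exact absurd hjj' (h _ _).ne
    · exact absurd hjj' (h _ _).ne'
  set σ := Tuple.sort f with hσ
  have hmono : Monotone (f ∘ σ) := Tuple.monotone_sort f
  have hord : ∀ j j', j < j' → ∀ a b, t (σ j) a < t (σ j') b := by
    intro j j' hjj'
    have h1 : f (σ j) ≤ f (σ j') := hmono hjj'.le
    rcases hsep (σ j) (σ j') (fun h => hjj'.ne (σ.injective h)) with h | h
    · exact h
    · exact absurd h1 (not_le.mpr (h _ _))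
  have key := core_ordered (t := fun j => t (σ j)) hm hp (fun j => ht (σ j)) hord
  have hX : (⋂ j, schubertVariety (2 * p) (rect (2 * p) p (m - p)) (t (σ j))) =
      ⋂ j, schubertVariety (2 * p) (rect (2 * p) p (m - p)) (t j) :=
    σ.surjective.iInter_comp (fun j => schubertVariety (2 * p) (rect (2 * p) p (m - p)) (t j))
  rw [hX] at key
  obtain ⟨k1, k2, k3⟩ := key
  refine ⟨k1, k2, fun H hH => ?_⟩
  obtain ⟨c1, c2, c3⟩ := k3 H hH
  refine ⟨c1, fun j => ?_, fun φ hφ => c3 φ fun j => hφ (σ j)⟩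
  have := c2 (σ.symm j)
  rwa [Equiv.apply_symm_apply] at this

/-- **The Secant Conjecture for four equal rectangles.**  For all `0 ≤ p ≤ m`, `1 ≤ m`, the
Schubert problem `(λ, λ, λ, λ)` with `λ = ((m-p)^p)` in `Gr(2p, 2m)` and any four disjoint secant
flags: the intersection of the four Schubert varieties is finite, it consists of exactly
`m.choose p` points, every point `H` is real, the relative position of `H` and the `m`-dimensional
member of each flag is the generic one (so that `H` is a smooth point of each of the four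
Schubert varieties), and the tangent spaces
`{φ : H → ℂⁿ/H | φ (H ∩ F_m) ⊆ (F_m + H)/H}` of the four Schubert varieties at `H` meet in `0`
(so that the intersection is transverse at `H`). -/
theorem result (m p : ℕ) (hm : 1 ≤ m) (hp : p ≤ m) (t : Fin 4 → Fin (2 * m) → ℝ)
    (ht : DisjointSecant t) :
    (solutions m p t).Finite ∧ (solutions m p t).ncard = m.choose p ∧
      ∀ H ∈ solutions m p t, IsRealSpace H ∧
        (∀ j, finrank ℂ ↥(H ⊓ secantFlag (t j) m) = p) ∧
        TangentZero (fun j => secantFlag (t j) m) H :=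
  core hm hp (2 * m) (two_mul m) t ht.1 ht.2

end Pool.Agent.Results.MP_0c25eb_ag.FourRectangles
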